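import Pool.Agent.T2H09.LW.Cor2

/-!
# Almost periodic orbits near the critical value
-/

set_option autoImplicit false
open Set Filter Topology Metric

namespace Pool.Agent.T2H09.LW

open Pool.Agent.W746.LD Pool.Agent.T2H09.DH Pool.Agent.T2H09.LU Pool.Agent.T2H09.LV N62a1eb23

theorem pseudo {n : ℕ} (hn : 2 ≤ n) : ∃ C ε : ℝ, 0 < C ∧ 0 < ε ∧ ∀ c ∈ multibrotSet n,
    ∀ N : ℕ, 2 ≤ N → ∀ z : ℂ,
    max ‖z - c‖ ‖orb n c z N - z‖ ≤ Real.exp (-(C * Real.log N ^ 2)) →
    Near n (N + 2) c (max ‖z - c‖ ‖orb n c z N - z‖ ^ (ε / Real.log N)) := by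
  obtain ⟨C1, ε1, hC1, hε1, h1⟩ := recV2 hn
  obtain ⟨C2, ε2, hC2, hε2, h2⟩ := sepV2 hn
  obtain ⟨l2, hl2⟩ : ∃ l2, l2 = Real.log 2 := ⟨_, rfl⟩
  have hl20 : 0 < l2 := by rw [hl2]; exact Real.log_pos (by norm_num)
  refine ⟨4 * C1 + C2 + 8 / l2 ^ 2, min (ε1 / 4) ε2, by positivity, by positivity, ?_⟩
  intro c hc N hN z hz
  have hN2 : (2 : ℝ) ≤ N := by exact_mod_cast hN
  have hll : l2 ≤ Real.log N := by rw [hl2]; exact Real.log_le_log (by norm_num) hN2
  have hl0 : 0 < Real.log N := by linarith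
  have hsq : l2 ^ 2 ≤ Real.log N ^ 2 := by gcongr
  have hbig : 8 ≤ 8 / l2 ^ 2 * Real.log N ^ 2 := by
    rw [div_mul_eq_mul_div, le_div_iff₀ (by positivity)]
    nlinarith
  set η : ℝ := max ‖z - c‖ ‖orb n c z N - z‖ with hη
  have hη0 : 0 ≤ η := le_max_of_le_left (norm_nonneg _)
  have hLsq : 0 ≤ Real.log N ^ 2 := by positivity
  have hη1 : η ≤ 1 := by
    refine hz.trans ?_
    rw [Real.exp_le_one_iff]
    nlinarith
  have hzc : ‖z - c‖ ≤ η := le_max_left _ _
  have hfz : ‖orb n c z N - z‖ ≤ η := le_max_right _ _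
  have hm1 : min (ε1 / 4) ε2 / Real.log N ≤ ε1 / 4 / Real.log N := by
    gcongr
    exact min_le_left _ _
  have hm2 : min (ε1 / 4) ε2 / Real.log N ≤ ε2 / Real.log N := by
    gcongr
    exact min_le_right _ _
  have hm0 : 0 < min (ε1 / 4) ε2 / Real.log N := by positivity
  by_cases hsep : √‖z - c‖ < ‖orb n c z N - orb n c c N‖
  · have h3 := h2 c hc N hN z (hzc.trans (hz.trans (Real.exp_le_exp.mpr (by nlinarith)))) hsep
    refine h3.mono le_rfl ?_
    have hzc0 : 0 < ‖z - c‖ := by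
      rw [norm_pos_iff, sub_ne_zero]
      rintro rfl
      rw [sub_self, sub_self, norm_zero, Real.sqrt_zero] at hsep
      exact lt_irrefl _ hsep
    have hη00 : 0 < η := lt_of_lt_of_le hzc0 hzc
    calc ‖z - c‖ ^ (ε2 / Real.log N) ≤ η ^ (ε2 / Real.log N) := by gcongr
      _ ≤ η ^ (min (ε1 / 4) ε2 / Real.log N) :=
        Real.rpow_le_rpow_of_exponent_ge hη00 hη1 hm2
  · push Not at hsep
    -- the fourth root
    obtain ⟨r, hr⟩ : ∃ r, r = √(√η) := ⟨_, rfl⟩
    have hr0 : 0 ≤ r := by rw [hr]; positivity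
    have hr2 : r ^ 2 = √η := by rw [hr, Real.sq_sqrt (by positivity)]
    have hr4 : r ^ 4 = η := by
      have : r ^ 4 = (r ^ 2) ^ 2 := by ring
      rw [this, hr2, Real.sq_sqrt hη0]
    have hrle : r ≤ Real.exp (-((C1 + 2 / l2 ^ 2) * Real.log N ^ 2)) := by
      have h4 : r ^ 4 ≤ Real.exp (-((C1 + 2 / l2 ^ 2) * Real.log N ^ 2)) ^ 4 := by
        rw [hr4, ← Real.exp_nat_mul]
        refine hz.trans (Real.exp_le_exp.mpr ?_)
        push_cast
        have h5 : 8 / l2 ^ 2 = 4 * (2 / l2 ^ 2) := by ring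
        rw [h5]
        nlinarith
      exact le_of_pow_le_pow_left₀ (by norm_num) (Real.exp_pos _).le h4
    have hr3 : 3 * r ≤ 1 := by
      have h5 : 2 ≤ (C1 + 2 / l2 ^ 2) * Real.log N ^ 2 := by
        have h6 : 2 ≤ 2 / l2 ^ 2 * Real.log N ^ 2 := by
          rw [div_mul_eq_mul_div, le_div_iff₀ (by positivity)]
          nlinarith
        nlinarith
      have h7 : r ≤ Real.exp (-2) := hrle.trans (Real.exp_le_exp.mpr (by linarith))
      have h8 : Real.exp (-2) ≤ 1 / 3 := by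
        rw [Real.exp_neg, inv_eq_one_div]
        apply one_div_le_one_div_of_le (by norm_num)
        have := Real.add_one_le_exp (2 : ℝ)
        linarith
      linarith
    have hr1 : r ≤ 1 := by linarith
    have hx : ‖orb n c c N - c‖ ≤ r := by
      have h3 : ‖orb n c c N - c‖ ≤ ‖orb n c z N - orb n c c N‖ + ‖orb n c z N - z‖ + ‖z - c‖ := by
        calc ‖orb n c c N - c‖
            = ‖-(orb n c z N - orb n c c N) + (orb n c z N - z) + (z - c)‖ := by ring_nf
          _ ≤ ‖-(orb n c z N - orb n c c N) + (orb n c z N - z)‖ + ‖z - c‖ := norm_add_le _ _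
          _ ≤ ‖-(orb n c z N - orb n c c N)‖ + ‖orb n c z N - z‖ + ‖z - c‖ := by
            gcongr
            exact norm_add_le _ _
          _ = _ := by rw [norm_neg]
      have h4 : √‖z - c‖ ≤ r ^ 2 := by
        rw [hr2]
        exact Real.sqrt_le_sqrt hzc
      have h5 : η ≤ r ^ 2 := by
        rw [← hr4]
        calc r ^ 4 = r ^ 2 * r ^ 2 := by ring
          _ ≤ r ^ 2 * 1 := by
            gcongr
            exact pow_le_one₀ hr0 hr1
          _ = r ^ 2 := mul_one _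
      have h6 : 3 * r ^ 2 ≤ r := by nlinarith
      linarith
    have h3 := h1 c hc N hN (hx.trans (hrle.trans (Real.exp_le_exp.mpr (by
      have : 0 ≤ 2 / l2 ^ 2 * Real.log N ^ 2 := by positivity
      nlinarith))))
    refine h3.mono le_rfl ?_
    have h4 : ‖orb n c c N - c‖ ^ (ε1 / Real.log N) ≤ r ^ (ε1 / Real.log N) := by gcongr
    refine h4.trans ?_
    have h5 : r ^ (ε1 / Real.log N) = η ^ (ε1 / 4 / Real.log N) := by
      rw [← hr4, ← Real.rpow_natCast r 4, ← Real.rpow_mul hr0]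
      congr 1
      push_cast
      field_simp
    rw [h5]
    rcases hη0.eq_or_lt with h6 | h6
    · rw [← h6, Real.zero_rpow (by positivity), Real.zero_rpow hm0.ne']
    · exact Real.rpow_le_rpow_of_exponent_ge h6 hη1 hm1

end Pool.Agent.T2H09.LW
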