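import Pool.Agent.T2H09.LW.Lag

/-!
# The block step: smallness at radially separated nodes
-/

set_option autoImplicit false
open Set Filter Topology Metric Polynomial

namespace Pool.Agent.T2H09.LW

/-- Taylor polynomials. -/
theorem taylor {G : ℂ → ℂ} {c : ℂ} {R R' s A : ℝ} (hs : 0 < s) (hsR : 2 * s ≤ R) (hR' : R < R')
    (hG : DifferentiableOn ℂ G (ball c R')) (hb : ∀ w ∈ ball c R', ‖G w‖ ≤ A) (D : ℕ) :
    ∃ p : ℂ[X], p.degree < (D + 1 : ℕ) ∧ ∀ w, ‖w - c‖ ≤ s →
      ‖p.eval w - G w‖ ≤ A * (s / R) ^ D := by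
  have hR : 0 < R := by linarith
  have hA : 0 ≤ A := (norm_nonneg _).trans (hb c (mem_ball_self (by linarith)))
  have hder : ∀ l : ℕ, ‖iteratedDeriv l G c‖ ≤ l.factorial * A / R ^ l := by
    intro l
    apply Complex.norm_iteratedDeriv_le_of_forall_mem_sphere_norm_le l hR
    · apply DifferentiableOn.diffContOnCl
      apply hG.mono
      exact closure_ball_subset_closedBall.trans (closedBall_subset_ball hR')
    · intro z hz
      apply hb
      rw [mem_sphere] at hz
      rw [mem_ball, hz]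
      exact hR'
  refine ⟨∑ l ∈ Finset.range (D + 1), C ((l.factorial : ℂ)⁻¹ * iteratedDeriv l G c) *
    (X - C c) ^ l, ?_, ?_⟩
  · rw [← mem_degreeLT]
    apply Submodule.sum_mem
    intro l hl
    rw [Finset.mem_range] at hl
    rw [mem_degreeLT]
    refine lt_of_le_of_lt degree_le_natDegree ?_
    have h1 : (C ((l.factorial : ℂ)⁻¹ * iteratedDeriv l G c) * (X - C c) ^ l).natDegree ≤ l := by
      refine natDegree_C_mul_le _ _ |>.trans ?_
      refine natDegree_pow_le.trans ?_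
      rw [natDegree_X_sub_C, mul_one]
    exact_mod_cast lt_of_le_of_lt h1 hl
  · intro w hw
    have hsum := Complex.hasSum_taylorSeries_on_ball hG (z := w)
      (by rw [mem_ball, dist_eq_norm]; linarith)
    have h1 := norm_sub_le_of_geometric_bound_of_hasSum (r := s / R) (C := A)
      (by rw [div_lt_one hR]; linarith)
      (by
        intro l
        rw [norm_smul, norm_smul, norm_inv, norm_pow, Complex.norm_natCast]
        have h2 := hder l
        have h3 : (0 : ℝ) < l.factorial := by positivity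
        calc (l.factorial : ℝ)⁻¹ * (‖w - c‖ ^ l * ‖iteratedDeriv l G c‖)
            ≤ (l.factorial : ℝ)⁻¹ * (s ^ l * (l.factorial * A / R ^ l)) := by gcongr
          _ = A * (s / R) ^ l := by rw [div_pow]; field_simp) hsum (D + 1)
    have h2 : eval w (∑ l ∈ Finset.range (D + 1), C ((l.factorial : ℂ)⁻¹ * iteratedDeriv l G c) *
        (X - C c) ^ l) = ∑ l ∈ Finset.range (D + 1), (l.factorial : ℂ)⁻¹ • (w - c) ^ l •
          iteratedDeriv l G c := by
      rw [eval_finsetSum]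
      refine Finset.sum_congr rfl fun l _ => ?_
      rw [eval_mul, eval_C, eval_pow, eval_sub, eval_X, eval_C, smul_eq_mul, smul_eq_mul]
      ring
    rw [h2]
    refine h1.trans ?_
    have hr0 : 0 < s / R := by positivity
    have hr1 : s / R ≤ 1 / 2 := by
      rw [div_le_div_iff₀ hR (by norm_num)]
      linarith
    rw [pow_succ, div_le_iff₀ (by linarith)]
    have h3 : s / R ≤ 1 - s / R := by linarith
    calc A * ((s / R) ^ D * (s / R)) = A * (s / R) ^ D * (s / R) := by ring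
      _ ≤ A * (s / R) ^ D * (1 - s / R) := by gcongr

/-- The block step. -/
theorem block {G : ℂ → ℂ} {c : ℂ} {s m K R' e A : ℝ} (hs : 0 < s) (hm : 0 < m) (hm1 : m ≤ 1)
    (hK : K = 8 * Real.exp 1 / m) (hR' : K ^ 2 * s < R') (hG : DifferentiableOn ℂ G (ball c R'))
    (hb : ∀ w ∈ ball c R', ‖G w‖ ≤ Real.exp A) (heA : e ≤ A) {D : ℕ}
    (hD : D = ⌊(A - e) / (2 * Real.log K)⌋₊ + 1) (w : ℕ → ℂ) (hw : ∀ i ≤ D, ‖w i - c‖ ≤ s)
    (hsep : ∀ i ≤ D, ∀ j ≤ D, m * s * |(i : ℝ) - j| / D ≤ ‖w i - w j‖)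
    (he : ∀ i ≤ D, ‖G (w i)‖ ≤ Real.exp e) {x : ℂ} (hx : ‖x - c‖ ≤ s) :
    ‖G x‖ ≤ Real.exp ((A + e) / 2 + Real.log (K + 2)) := by
  have hexp1 : 2 ≤ Real.exp 1 := by
    have := Real.add_one_le_exp (1 : ℝ)
    linarith
  have hK8 : 8 * Real.exp 1 ≤ K := by
    rw [hK, le_div_iff₀ hm]
    nlinarith
  have hK16 : 16 ≤ K := by linarith
  have hK0 : 0 < K := by linarith
  have hlK : 0 < Real.log K := Real.log_pos (by linarith)
  have hK2 : 2 ≤ K ^ 2 := by nlinarith
  obtain ⟨p, hp1, hp2⟩ := taylor (R := K ^ 2 * s) hs (by gcongr) hR' hG hb D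
  have e1 : s / (K ^ 2 * s) = (K ^ 2)⁻¹ := by field_simp
  rw [e1] at hp2
  obtain ⟨T, hT⟩ : ∃ T, T = Real.exp A * ((K ^ 2)⁻¹) ^ D := ⟨_, rfl⟩
  rw [← hT] at hp2
  have hT0 : 0 ≤ T := by rw [hT]; positivity
  have h1 := lag' (D := D) (by omega) hs hm (B := Real.exp e + T) (by positivity) w hw hsep p hp1
    (by
      intro i hi
      have h2 := hp2 (w i) (hw i hi)
      have h3 := he i hi
      calc ‖p.eval (w i)‖ = ‖(p.eval (w i) - G (w i)) + G (w i)‖ := by ring_nf
        _ ≤ ‖p.eval (w i) - G (w i)‖ + ‖G (w i)‖ := norm_add_le _ _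
        _ ≤ Real.exp e + T := by linarith) hx
  rw [← hK] at h1
  have h2 := hp2 x hx
  have h3 : ‖G x‖ ≤ (Real.exp e + T) * K ^ D + T := by
    calc ‖G x‖ = ‖p.eval x - (p.eval x - G x)‖ := by ring_nf
      _ ≤ ‖p.eval x‖ + ‖p.eval x - G x‖ := norm_sub_le _ _
      _ ≤ _ := by linarith
  have hKD1 : 1 ≤ K ^ D := one_le_pow₀ (by linarith)
  obtain ⟨z, hz⟩ : ∃ z, z = (A - e) / (2 * Real.log K) := ⟨_, rfl⟩
  rw [← hz] at hD
  have hz0 : 0 ≤ z := by rw [hz]; apply div_nonneg (by linarith); positivity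
  have hDz1 : (D : ℝ) ≤ z + 1 := by
    rw [hD]
    push_cast
    have := Nat.floor_le hz0
    linarith
  have hDz2 : z ≤ D := by
    rw [hD]
    push_cast
    exact (Nat.lt_floor_add_one z).le
  have hzl : z * Real.log K = (A - e) / 2 := by rw [hz]; field_simp
  have hKD : K ^ D ≤ K * Real.exp ((A - e) / 2) := by
    calc K ^ D = Real.exp (D * Real.log K) := by rw [Real.exp_nat_mul, Real.exp_log hK0]
      _ ≤ Real.exp ((z + 1) * Real.log K) := by
        apply Real.exp_le_exp.mpr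
        gcongr
      _ = K * Real.exp ((A - e) / 2) := by
        rw [add_mul, one_mul, Real.exp_add, hzl, Real.exp_log hK0]
        ring
  have hKT : T * K ^ D ≤ Real.exp ((A + e) / 2) := by
    have h4 : T * K ^ D = Real.exp (A - D * Real.log K) := by
      rw [hT, Real.exp_sub, Real.exp_nat_mul, Real.exp_log hK0, inv_pow, ← pow_mul, mul_comm 2 D,
        pow_mul]
      field_simp
    rw [h4]
    apply Real.exp_le_exp.mpr
    have h5 : z * Real.log K ≤ D * Real.log K := by gcongr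
    linarith
  have hKe : Real.exp e * K ^ D ≤ K * Real.exp ((A + e) / 2) := by
    calc Real.exp e * K ^ D ≤ Real.exp e * (K * Real.exp ((A - e) / 2)) := by gcongr
      _ = K * Real.exp ((A + e) / 2) := by
        have h5 : Real.exp e * Real.exp ((A - e) / 2) = Real.exp ((A + e) / 2) := by
          rw [← Real.exp_add]
          congr 1
          ring
        rw [← h5]
        ring
  rw [Real.exp_add, Real.exp_log (by linarith : 0 < K + 2)]
  have h6 : T ≤ T * K ^ D := le_mul_of_one_le_right hT0 hKD1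
  calc ‖G x‖ ≤ (Real.exp e + T) * K ^ D + T := h3
    _ = Real.exp e * K ^ D + T * K ^ D + T := by ring
    _ ≤ K * Real.exp ((A + e) / 2) + Real.exp ((A + e) / 2) + Real.exp ((A + e) / 2) := by linarith
    _ = _ := by ring

/-- Iterated blocks. -/
theorem blocks {G : ℂ → ℂ} {c : ℂ} {m K R' e A : ℝ} (hm : 0 < m) (hm1 : m ≤ 1)
    (hK : K = 8 * Real.exp 1 / m) (hG : DifferentiableOn ℂ G (ball c R'))
    (hb : ∀ w ∈ ball c R', ‖G w‖ ≤ Real.exp A) (hA : 0 ≤ A)
    (he : e = -(2 * Real.log (K + 2) + 2)) {q : ℕ} (hq : A + 2 ≤ 2 ^ q) (s : ℕ → ℝ)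
    (hs : ∀ i < q, 0 < s i) (hs0 : K ^ 2 * s 0 < R') (hst : ∀ i, i + 1 < q → K ^ 2 * s (i + 1) < s i)
    (hnodes : ∀ i < q, ∀ D : ℕ, 1 ≤ D → D ≤ ⌊(A - e) / 2⌋₊ + 1 → ∃ w : ℕ → ℂ,
      (∀ j ≤ D, ‖w j - c‖ ≤ s i) ∧
      (∀ j ≤ D, ∀ k ≤ D, m * s i * |(j : ℝ) - k| / D ≤ ‖w j - w k‖) ∧
      ∀ j ≤ D, ‖G (w j)‖ ≤ Real.exp e) : ‖G c‖ < 1 := by
  have hexp1 : 2 ≤ Real.exp 1 := by
    have := Real.add_one_le_exp (1 : ℝ)
    linarith
  have hK8 : 8 * Real.exp 1 ≤ K := by
    rw [hK, le_div_iff₀ hm]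
    nlinarith
  have hK16 : 16 ≤ K := by linarith
  have hK0 : 0 < K := by linarith
  have hlK : 1 ≤ Real.log K := by
    rw [Real.le_log_iff_exp_le hK0]
    nlinarith [Real.exp_pos 1]
  have hlK2 : 0 ≤ Real.log (K + 2) := Real.log_nonneg (by linarith)
  have hK1 : 1 ≤ K ^ 2 := one_le_pow₀ (by linarith)
  have hq1 : 1 ≤ q := by
    by_contra hlt
    have : q = 0 := by omega
    rw [this, pow_zero] at hq
    linarith
  obtain ⟨a, ha⟩ : ∃ a : ℕ → ℝ, a = fun i => -2 + (1 / 2) ^ i * (A + 2) := ⟨_, rfl⟩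
  have ha0 : a 0 = A := by rw [ha]; simp
  have hag : ∀ i, -2 ≤ a i := by
    intro i
    rw [ha]
    have : 0 ≤ (1 / 2 : ℝ) ^ i * (A + 2) := by positivity
    simp only
    linarith
  have hal : ∀ i, a i ≤ A := by
    intro i
    rw [ha]
    have h1 : (1 / 2 : ℝ) ^ i ≤ 1 := pow_le_one₀ (by norm_num) (by norm_num)
    simp only
    nlinarith
  have hrec : ∀ i, (a i + e) / 2 + Real.log (K + 2) = a (i + 1) := by
    intro i
    rw [ha, he]
    simp only
    rw [pow_succ]
    ring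
  have key : ∀ i, i < q → ∀ x, ‖x - c‖ ≤ s i → ‖G x‖ ≤ Real.exp (a (i + 1)) := by
    have hstep : ∀ i, i < q → ∀ R'' : ℝ, K ^ 2 * s i < R'' → R'' ≤ R' →
        (∀ x ∈ ball c R'', ‖G x‖ ≤ Real.exp (a i)) → ∀ x, ‖x - c‖ ≤ s i →
        ‖G x‖ ≤ Real.exp (a (i + 1)) := by
      intro i hi R'' h1 h2 h3 x hx
      have hae : e ≤ a i := by
        have := hag i
        rw [he]
        linarith
      have h4 : ⌊(a i - e) / (2 * Real.log K)⌋₊ ≤ ⌊(A - e) / 2⌋₊ := by
        apply Nat.floor_mono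
        have := hal i
        apply div_le_div₀ _ _ (by norm_num) _
        · linarith
        · linarith
        · linarith
      obtain ⟨w, hw1, hw2, hw3⟩ := hnodes i hi (⌊(a i - e) / (2 * Real.log K)⌋₊ + 1) (by omega)
        (by omega)
      rw [← hrec]
      exact block (hs i hi) hm hm1 hK h1 (hG.mono (ball_subset_ball h2)) h3 hae rfl w hw1 hw2 hw3 hx
    intro i
    induction i with
    | zero =>
      intro hi
      exact hstep 0 hi R' hs0 le_rfl (by rw [ha0]; exact hb)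
    | succ i ih =>
      intro hi
      have h1 := ih (by omega)
      have h2 := hst i hi
      have hR : s i ≤ R' := by
        have h5 : ∀ j, j < q → s j ≤ R' := by
          intro j
          induction j with
          | zero =>
            intro hj
            have h9 : 1 * s 0 ≤ K ^ 2 * s 0 := mul_le_mul_of_nonneg_right hK1 (hs 0 hj).le
            linarith
          | succ j ihj =>
            intro hj
            have h6 := ihj (by omega)
            have h7 := hst j hj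
            have h9 : 1 * s (j + 1) ≤ K ^ 2 * s (j + 1) :=
              mul_le_mul_of_nonneg_right hK1 (hs (j + 1) hj).le
            linarith
        exact h5 i (by omega)
      exact hstep (i + 1) hi (s i) h2 hR (fun x hx => h1 x (by
        rw [mem_ball, dist_eq_norm] at hx
        exact hx.le))
  have h1 := key (q - 1) (by omega) c (by rw [sub_self, norm_zero]; exact (hs _ (by omega)).le)
  rw [show q - 1 + 1 = q by omega] at h1
  have h2 : a q ≤ -1 := by
    rw [ha]
    simp only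
    have h3 : (1 / 2 : ℝ) ^ q * (A + 2) ≤ (1 / 2 : ℝ) ^ q * 2 ^ q := by gcongr
    rw [← mul_pow] at h3
    norm_num at h3
    linarith
  refine h1.trans_lt ?_
  rw [Real.exp_lt_one_iff]
  linarith

end Pool.Agent.T2H09.LW
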