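import Pool.Agent.T2H09.LW.Quasi2
import Pool.Agent.T2H09.LV.MA0
import Pool.Agent.T2H09.LU.Str

/-!
# Growth `exp (C log ^ 2 N)` of the derivatives and nearby attracting cycles
-/

set_option autoImplicit false
open Set Filter Topology Metric MeasureTheory
open scoped ENNReal

namespace Pool.Agent.T2H09.LW

open Pool.Agent.W746.LD Pool.Agent.T2H09.DH Pool.Agent.T2H09.LU Pool.Agent.T2H09.LV N62a1eb23

/-- The main estimate with a constant of the form `A log M`. -/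
theorem main_abs {n : ℕ} (hn : 2 ≤ n) : ∃ A : ℝ, 0 < A ∧ ∀ c ∈ multibrotSet n, ∀ M : ℕ, 2 ≤ M →
    (∀ j < M, orb n c c j ≠ 0) → 1 ≤ ‖P n c c M‖ → ∀ C : ℝ, 0 < C →
    (∀ N, 1 ≤ N → N ≤ M →
      ∫⁻ w in closedBall (0 : ℂ) 3, ‖er n c N w‖ₑ ≤ ENNReal.ofReal (ep n c C N)) →
    ∀ (J : ℕ) (m : ℝ), 1 ≤ J → J ≤ M → 0 ≤ m → (∀ j, 1 ≤ j → j < J → kk n c j ≤ m) →
      m + A * Real.log M ≤ aa n c M → 0 ≤ Real.log (ep n c C J) + (A * Real.log M + m) := by
  have hn1 : (1 : ℝ) ≤ n := by exact_mod_cast (by omega : 1 ≤ n)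
  have h3n : (1 : ℝ) ≤ 3 ^ n := one_le_pow₀ (by norm_num)
  obtain ⟨L, hLd⟩ : ∃ L, L = Real.log (3 ^ n + 4) := ⟨_, rfl⟩
  have hL0 : 0 ≤ L := by rw [hLd]; exact Real.log_nonneg (by linarith)
  obtain ⟨h, hh⟩ : ∃ h : ℝ, h = 1 / (8 * (3 ^ n + 2)) := ⟨_, rfl⟩
  have hh0 : 0 < h := by rw [hh]; positivity
  have hLh : h * L ≤ 1 := by
    rw [hh, div_mul_eq_mul_div, one_mul, div_le_one (by positivity), hLd]
    have := Real.log_le_sub_one_of_pos (show (0 : ℝ) < 3 ^ n + 4 by positivity)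
    linarith
  obtain ⟨m0, hm0⟩ : ∃ m0, m0 = Real.exp (-(2 + L)) * h / 4 := ⟨_, rfl⟩
  have hm00 : 0 < m0 := by rw [hm0]; positivity
  obtain ⟨K, hK⟩ : ∃ K, K = 8 * Real.exp 1 / m0 := ⟨_, rfl⟩
  have hh1 : h ≤ 1 := by
    rw [hh, div_le_one (by positivity)]
    linarith
  have hm01 : m0 ≤ 1 := by
    rw [hm0]
    have h1 : Real.exp (-(2 + L)) ≤ 1 := by rw [Real.exp_le_one_iff]; linarith
    have h2 : 0 ≤ Real.exp (-(2 + L)) := (Real.exp_pos _).le
    nlinarith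
  have hexp1 : 2 ≤ Real.exp 1 := by
    have := Real.add_one_le_exp (1 : ℝ)
    linarith
  have hK16 : 16 ≤ K := by
    rw [hK, le_div_iff₀ hm00]
    nlinarith
  have hK0 : 0 < K := by linarith
  have hK1 : 1 ≤ K ^ 2 := one_le_pow₀ (by linarith)
  have hlK4 : 0 ≤ Real.log (4 * K ^ 2) := Real.log_nonneg (by linarith)
  have hlK2 : 0 ≤ Real.log (2 * K ^ 2) := Real.log_nonneg (by linarith)
  have hlKK : 0 ≤ Real.log (K + 2) := Real.log_nonneg (by linarith)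
  obtain ⟨l2, hl2⟩ : ∃ l2, l2 = Real.log 2 := ⟨_, rfl⟩
  have hl20 : 0 < l2 := by rw [hl2]; exact Real.log_pos (by norm_num)
  obtain ⟨ln, hln⟩ : ∃ ln, ln = Real.log (2 * n) := ⟨_, rfl⟩
  have hln0 : 0 ≤ ln := by rw [hln]; exact Real.log_nonneg (by linarith)
  -- the constants
  obtain ⟨B1, hB1⟩ : ∃ B1, B1 = 3 + ln := ⟨_, rfl⟩
  have hB11 : 1 ≤ B1 := by rw [hB1]; linarith
  obtain ⟨B2, hB2⟩ : ∃ B2, B2 = B1 + Real.log (K + 2) + 4 := ⟨_, rfl⟩
  have hB21 : 1 ≤ B2 := by rw [hB2]; linarith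
  have hlB1 : 0 ≤ Real.log B1 := Real.log_nonneg hB11
  have hlB2 : 0 ≤ Real.log B2 := Real.log_nonneg hB21
  have hl48 : 0 ≤ Real.log 48 := Real.log_nonneg (by norm_num)
  have hlh : Real.log h ≤ 0 := Real.log_nonpos hh0.le hh1
  obtain ⟨LK, hLK⟩ : ∃ LK, LK = Real.log (2 * K ^ 2) := ⟨_, rfl⟩
  rw [← hLK] at hlK2
  obtain ⟨A3, hA3⟩ : ∃ A3, A3 = Real.log B1 / l2 + 1 := ⟨_, rfl⟩
  have hA30 : 0 ≤ A3 := by rw [hA3]; positivity
  obtain ⟨A2, hA2⟩ : ∃ A2, A2 = Real.log 48 + 2 * Real.log B2 - 2 * Real.log h +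
    Real.log (4 * K ^ 2) + 4 + L + (2 * Real.log (K + 2) + 2) := ⟨_, rfl⟩
  have hA20 : 0 ≤ A2 := by rw [hA2]; linarith
  refine ⟨(A2 + A3 * LK) / l2 + 4 + LK / l2, by positivity, ?_⟩
  intro c hc M hM h0 hP1 C hC hmass J m hJ1 hJM hm hdeep hma
  have hM2 : (2 : ℝ) ≤ M := by exact_mod_cast hM
  have hM0 : (0 : ℝ) < M := by linarith
  obtain ⟨l, hl⟩ : ∃ l, l = Real.log M := ⟨_, rfl⟩
  have hll : l2 ≤ l := by rw [hl, hl2]; exact Real.log_le_log (by norm_num) hM2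
  have hl0 : 0 < l := by linarith
  rw [← hl] at hma ⊢
  have hlM : l ≤ M := by
    rw [hl]
    have := Real.log_le_sub_one_of_pos hM0
    linarith
  have hlW : lW n M = l + M * ln := by
    unfold lW
    rw [Real.log_mul hM0.ne' (by positivity), Real.log_pow, ← hl, ← hln]
  have hlW0 : 0 ≤ lW n M := by rw [hlW]; positivity
  have hlWB : lW n M + 2 ≤ B1 * M := by
    rw [hlW, hB1]
    nlinarith
  -- the number of blocks
  obtain ⟨q, hq⟩ : ∃ q : ℕ, q = ⌈Real.log (B1 * M) / l2⌉₊ := ⟨_, rfl⟩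
  have hBM : 0 < B1 * M := by positivity
  have hlBM : Real.log (B1 * M) = Real.log B1 + l := by
    rw [Real.log_mul (by linarith) hM0.ne', ← hl]
  have hq1 : lW n M + 2 ≤ 2 ^ q := by
    have h1 : Real.log (B1 * M) / l2 ≤ q := by rw [hq]; exact Nat.le_ceil _
    rw [div_le_iff₀ hl20] at h1
    have h2 : B1 * M ≤ 2 ^ q := by
      have h3 : (2 : ℝ) ^ q = Real.exp (q * l2) := by
        rw [Real.exp_nat_mul, hl2, Real.exp_log (by norm_num)]
      rw [h3, ← Real.exp_log hBM]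
      exact Real.exp_le_exp.mpr h1
    linarith
  have hq2 : (q : ℝ) ≤ A3 + l / l2 := by
    have h1 : (q : ℝ) ≤ (Real.log B1 + l) / l2 + 1 := by
      rw [hq, ← hlBM]
      apply (Nat.ceil_lt_add_one _).le
      rw [hlBM]
      positivity
    rw [add_div] at h1
    rw [hA3]
    linarith
  -- the number of nodes
  obtain ⟨Dm, hDm⟩ : ∃ Dm : ℕ, Dm = ⌊(lW n M + (2 * Real.log (K + 2) + 2)) / 2⌋₊ + 1 := ⟨_, rfl⟩
  have hDm1 : (1 : ℝ) ≤ Dm := by
    rw [hDm]
    push_cast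
    have : (0 : ℝ) ≤ (⌊(lW n M + (2 * Real.log (K + 2) + 2)) / 2⌋₊ : ℝ) := Nat.cast_nonneg _
    linarith
  have hDm2 : (Dm : ℝ) ≤ B2 * M := by
    have h1 : (Dm : ℝ) ≤ (lW n M + (2 * Real.log (K + 2) + 2)) / 2 + 1 := by
      rw [hDm]
      push_cast
      have := Nat.floor_le (show 0 ≤ (lW n M + (2 * Real.log (K + 2) + 2)) / 2 by positivity)
      linarith
    rw [hB2]
    have h2 : Real.log (K + 2) + 4 ≤ (Real.log (K + 2) + 4) * M :=
      le_mul_of_one_le_right (by linarith) (by linarith)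
    have h3 : 0 ≤ B1 * M := hBM.le
    linarith
  have hlog : Real.log (12 * (Dm * (M + 1)) ^ 2 / h ^ 2) ≤
      Real.log 48 + 2 * Real.log B2 - 2 * Real.log h + 4 * l := by
    have h1 : 12 * ((Dm : ℝ) * (M + 1)) ^ 2 / h ^ 2 ≤ 48 * B2 ^ 2 * M ^ 4 / h ^ 2 := by
      have h2 : (Dm : ℝ) * (M + 1) ≤ B2 * M * (2 * M) := by
        gcongr
        linarith
      apply div_le_div_of_nonneg_right _ (by positivity)
      calc 12 * ((Dm : ℝ) * (M + 1)) ^ 2 ≤ 12 * (B2 * M * (2 * M)) ^ 2 := by gcongr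
        _ = _ := by ring
    refine (Real.log_le_log (by positivity) h1).trans (le_of_eq ?_)
    rw [Real.log_div (by positivity) (by positivity), Real.log_mul (by positivity) (by positivity),
      Real.log_mul (by norm_num) (by positivity), Real.log_pow, Real.log_pow, Real.log_pow, ← hl]
    push_cast
    ring
  have hqLK : (q : ℝ) * LK ≤ A3 * LK + LK / l2 * l := by
    calc (q : ℝ) * LK ≤ (A3 + l / l2) * LK := by gcongr
      _ = _ := by ring
  have hAl : A2 + A3 * LK + (4 + LK / l2) * l ≤ ((A2 + A3 * LK) / l2 + 4 + LK / l2) * l := by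
    have h1 : A2 + A3 * LK ≤ (A2 + A3 * LK) / l2 * l := by
      rw [div_mul_eq_mul_div, le_div_iff₀ hl20]
      gcongr
    linarith
  have hcond : m + Real.log (4 * K ^ 2) + q * Real.log (2 * K ^ 2) + 4 + L ≤ aa n c M := by
    rw [← hLK]
    linarith
  have key := main_est2 hn hc h0 hP1 hJ1 hJM (ep_pos hn hc h0 hJ1 hJM hC) (hmass J hJ1 hJM) hL0
    (fun k => by
      unfold kap
      have h1 := Real.log_le_log (dl_pos hn hc k) (dl_step hn hc k)
      rw [Real.log_mul (by positivity) (dl_pos hn hc (k + 1)).ne'] at h1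
      linarith)
    hm hdeep hh hLh hm0 hK hq1 hDm.ge hcond
  rw [← hLK] at key
  linarith

/-- Large derivatives at the critical value give nearby parameters with an attracting cycle of
small period. -/
theorem quasiV2 {n : ℕ} (hn : 2 ≤ n) : ∃ C ε : ℝ, 0 < C ∧ 0 < ε ∧ ∀ c ∈ multibrotSet n,
    ∀ N : ℕ, 2 ≤ N → C * Real.log N ^ 2 ≤ Real.log ‖P n c c N‖ →
    ∃ c' : ℂ, ‖c' - c‖ ≤ Real.exp (-(ε * Real.log ‖P n c c N‖ / Real.log N)) ∧
      ∃ p ≤ N + 2, ∃ z, IsAttractingCycle (fun z => z ^ n + c') p z := by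
  have hn1 : (1 : ℝ) ≤ n := by exact_mod_cast (by omega : 1 ≤ n)
  obtain ⟨E, hE1, hmassE⟩ := er_massV hn
  have hE0 : 0 < E := by linarith
  have hlE : 0 ≤ Real.log E := Real.log_nonneg hE1
  obtain ⟨A, hA0, hA⟩ := main_abs hn
  obtain ⟨l2, hl2⟩ : ∃ l2, l2 = Real.log 2 := ⟨_, rfl⟩
  have hl20 : 0 < l2 := by rw [hl2]; exact Real.log_pos (by norm_num)
  have hln0 : 0 ≤ Real.log (2 * n) := Real.log_nonneg (by linarith)
  have hlog5 : 0 ≤ Real.log (5 + Real.log (2 * n)) := Real.log_nonneg (by linarith)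
  obtain ⟨A5, hA5⟩ : ∃ A5, A5 = A + (Real.log E + Real.log (5 + Real.log (2 * n)) + 4) / l2 + 2 :=
    ⟨_, rfl⟩
  have hA50 : 0 < A5 := by rw [hA5]; positivity
  obtain ⟨A6, hA6⟩ : ∃ A6, A6 = 5 / l2 := ⟨_, rfl⟩
  have hA60 : 0 < A6 := by rw [hA6]; positivity
  refine ⟨2 * A6 * A5, 1 / (2 * A6), by positivity, by positivity, ?_⟩
  intro c hc M hM hyp
  obtain ⟨ε, hε⟩ : ∃ ε, ε = 1 / (2 * A6) := ⟨_, rfl⟩
  rw [← hε]
  have hε0 : 0 < ε := by rw [hε]; positivity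
  have hM2 : (2 : ℝ) ≤ M := by exact_mod_cast hM
  have hM0 : (0 : ℝ) < M := by linarith
  obtain ⟨l, hl⟩ : ∃ l, l = Real.log M := ⟨_, rfl⟩
  have hll : l2 ≤ l := by rw [hl, hl2]; exact Real.log_le_log (by norm_num) hM2
  have hl0 : 0 < l := by linarith
  rw [← hl] at hyp ⊢
  obtain ⟨a, ha⟩ : ∃ a, a = Real.log ‖P n c c M‖ := ⟨_, rfl⟩
  rw [← ha] at hyp ⊢
  have ha0 : 0 < a := lt_of_lt_of_le (by positivity) hyp
  have hP1 : 1 ≤ ‖P n c c M‖ := by
    by_contra hlt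
    push Not at hlt
    have h1 : Real.log ‖P n c c M‖ ≤ 0 := Real.log_nonpos (norm_nonneg _) hlt.le
    linarith
  obtain ⟨r, hr⟩ : ∃ r, r = Real.exp (-(ε * a / l)) := ⟨_, rfl⟩
  rw [← hr]
  have hr0 : 0 < r := by rw [hr]; exact Real.exp_pos _
  have hr1 : r ≤ 1 := by
    rw [hr, Real.exp_le_one_iff]
    have : 0 ≤ ε * a / l := by positivity
    linarith
  by_contra hcon
  push Not at hcon
  have hcb : c ∈ ball c r := mem_ball_self hr0
  have hatt : ∀ t ∈ ball c r, ∀ p ≤ M + 2, ∀ z, ¬ IsAttractingCycle (fun z => z ^ n + t) p z := by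
    intro t ht
    rw [mem_ball, dist_eq_norm] at ht
    exact hcon t ht.le
  have hno : ∀ t ∈ ball c r, ¬ Pool.Agent.H548R3.MB.Centre n (M + 2) t := by
    rintro t ht ⟨p, hp1, hp2, hp3⟩
    exact hatt t ht p hp2 0 (Pool.Agent.H548R3.MB.att_of_centre hn hp1 hp3)
  have h0 : ∀ j < M, orb n c c j ≠ 0 := by
    intro j hj h0
    apply hno c hcb
    refine ⟨j + 1, by omega, by omega, ?_⟩
    have := P_eq_orb hn j c
    rw [h0] at this
    exact this
  have haM : a ≤ M * Real.log (2 * n) := by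
    have h1 := Real.log_le_log (by linarith) (P_le hn hc M)
    rw [Real.log_pow] at h1
    rw [ha]
    exact h1
  have hlog5a : Real.log (5 + a) ≤ Real.log (5 + Real.log (2 * n)) + l := by
    rw [hl, ← Real.log_mul (by positivity) hM0.ne']
    apply Real.log_le_log (by linarith)
    nlinarith
  have hEr : 1 ≤ E / r := by
    rw [le_div_iff₀ hr0]
    linarith
  have hlEr : Real.log (E / r) = Real.log E + ε * a / l := by
    rw [Real.log_div hE0.ne' hr0.ne', hr, Real.log_exp]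
    ring
  have hmass := hmassE c hc M r hr0 hr1 hno
  have key := quasi2 hn hc (by omega) h0 hP1 hEr (fun N _ hN z => hatt c hcb N (by omega) z)
    (Q := A * l) (by positivity)
    (by
      intro J m hJ1 hJM hm hdeep hma
      have := hA c hc M hM h0 hP1 (E / r) (by linarith) hmass J m hJ1 hJM hm hdeep
      rw [← hl] at this
      exact this hma)
    (u := Real.log (E / r) + A * l + Real.log (5 + aa n c M) + Real.log M + 4) le_rfl
    (l := Nat.log 2 M + 1) (Nat.lt_pow_succ_log_self (by norm_num) M)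
  have haa : aa n c M = a := ha.symm
  rw [haa, hlEr, ← hl] at key
  obtain ⟨u, hu⟩ : ∃ u, u = Real.log E + ε * a / l + A * l + Real.log (5 + a) + l + 4 := ⟨_, rfl⟩
  rw [← hu] at key
  have hu1 : u ≤ A5 * l + ε * a / l := by
    have h1 : Real.log E + Real.log (5 + Real.log (2 * n)) + 4 ≤
        (Real.log E + Real.log (5 + Real.log (2 * n)) + 4) / l2 * l := by
      rw [div_mul_eq_mul_div, le_div_iff₀ hl20]
      gcongr
    rw [hu, hA5]
    linarith
  have hu2 : 0 ≤ A5 * l + ε * a / l := by positivity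
  have hlog : ((Nat.log 2 M : ℕ) : ℝ) ≤ l / l2 := by
    rw [le_div_iff₀ hl20, hl2, hl, ← Real.log_pow]
    apply Real.log_le_log (by positivity)
    exact_mod_cast Nat.pow_log_le_self 2 (by omega)
  have hcoef : 2 * ((Nat.log 2 M + 1 : ℕ) : ℝ) + 1 ≤ A6 * l := by
    have h1 : 1 ≤ l / l2 := by rw [le_div_iff₀ hl20]; linarith
    have e : A6 * l = 5 * (l / l2) := by rw [hA6]; ring
    rw [e]
    push_cast
    linarith
  have h5 : a < A6 * l * (A5 * l + ε * a / l) := by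
    refine lt_of_lt_of_le key ?_
    calc (2 * ((Nat.log 2 M + 1 : ℕ) : ℝ) + 1) * u
        ≤ (2 * ((Nat.log 2 M + 1 : ℕ) : ℝ) + 1) * (A5 * l + ε * a / l) := by gcongr
      _ ≤ A6 * l * (A5 * l + ε * a / l) := by gcongr
  have h6 : A6 * l * (A5 * l + ε * a / l) = A6 * A5 * l ^ 2 + a / 2 := by
    rw [hε]
    field_simp
  rw [h6] at h5
  linarith

end Pool.Agent.T2H09.LW
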