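import Mathlib

/-!
# Lagrange interpolation at radially separated nodes
-/

set_option autoImplicit false
open Set Filter Topology Metric Polynomial

namespace Pool.Agent.T2H09.LW

lemma prod_fact (D : ℕ) : ∀ i ≤ D, ∏ j ∈ (Finset.range (D + 1)).erase i, |(i : ℝ) - j| =
    (i.factorial : ℝ) * ((D - i).factorial : ℝ) := by
  induction D with
  | zero =>
    intro i hi
    have : i = 0 := by omega
    subst this
    simp
  | succ D ih =>
    intro i hi
    rcases Nat.lt_or_ge i (D + 1) with h | h
    · have e : (Finset.range (D + 1 + 1)).erase i =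
          insert (D + 1) ((Finset.range (D + 1)).erase i) := by
        ext j
        simp only [Finset.mem_erase, Finset.mem_range, Finset.mem_insert]
        omega
      rw [e, Finset.prod_insert (by simp), ih i (by omega)]
      have h2 : D + 1 - i = (D - i) + 1 := by omega
      rw [h2, Nat.factorial_succ]
      have h3 : |(i : ℝ) - (D + 1 : ℕ)| = ((D - i + 1 : ℕ) : ℝ) := by
        have h4 : (i : ℝ) ≤ D := by exact_mod_cast (by omega : i ≤ D)
        rw [abs_sub_comm, abs_of_nonneg (by push_cast; linarith)]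
        rw [← h2, Nat.cast_sub (by omega)]
      rw [h3]
      push_cast
      ring
    · have hi' : i = D + 1 := by omega
      subst hi'
      have e : (Finset.range (D + 1 + 1)).erase (D + 1) = Finset.range (D + 1) := by
        ext j
        simp only [Finset.mem_erase, Finset.mem_range]
        omega
      rw [e, Nat.sub_self, Nat.factorial_zero, Nat.cast_one, mul_one,
        ← Finset.prod_range_reflect, ← Finset.prod_range_add_one_eq_factorial]
      push_cast
      refine Finset.prod_congr rfl fun j hj => ?_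
      rw [Finset.mem_range] at hj
      have hj' : (j : ℝ) ≤ D := by exact_mod_cast (by omega : j ≤ D)
      have e3 : ((D - j : ℕ) : ℝ) = D - j := by
        rw [Nat.cast_sub (by omega)]
      rw [e3, abs_of_nonneg (by linarith)]
      ring

/-- Polynomials of degree at most `D` which are bounded at `D + 1` separated nodes. -/
theorem lag {D : ℕ} {c : ℂ} {s g B : ℝ} (hs : 0 < s) (hg : 0 < g) (hB : 0 ≤ B) (w : ℕ → ℂ)
    (hw : ∀ i ≤ D, ‖w i - c‖ ≤ s)
    (hsep : ∀ i ≤ D, ∀ j ≤ D, g * |(i : ℝ) - j| ≤ ‖w i - w j‖) (p : ℂ[X])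
    (hp : p.degree < (D + 1 : ℕ)) (hpB : ∀ i ≤ D, ‖p.eval (w i)‖ ≤ B) {x : ℂ} (hx : ‖x - c‖ ≤ s) :
    ‖p.eval x‖ ≤ B * ((8 * s / g) ^ D / D.factorial) := by
  have hinj : Set.InjOn w (Finset.range (D + 1) : Finset ℕ) := by
    intro i hi j hj hij
    simp only [Finset.coe_range, Set.mem_Iio] at hi hj
    by_contra hne
    have h1 := hsep i (by omega) j (by omega)
    rw [hij, sub_self, norm_zero] at h1
    have h2 : 0 < |(i : ℝ) - j| := by
      rw [abs_pos, sub_ne_zero]
      exact_mod_cast hne
    nlinarith [mul_pos hg h2]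
  have h1 := Lagrange.eq_interpolate (s := Finset.range (D + 1)) (v := w) (f := p) hinj
    (by rw [Finset.card_range]; exact hp)
  have h2 : p.eval x = ∑ i ∈ Finset.range (D + 1), p.eval (w i) *
      (Lagrange.basis (Finset.range (D + 1)) w i).eval x := by
    conv_lhs => rw [h1]
    rw [Lagrange.interpolate_apply, eval_finsetSum]
    refine Finset.sum_congr rfl fun i _ => ?_
    rw [eval_mul, eval_C]
  have hb : ∀ i ∈ Finset.range (D + 1),
      ‖(Lagrange.basis (Finset.range (D + 1)) w i).eval x‖ ≤ (4 * s / g) ^ D / D.factorial := by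
    intro i hi
    have hi' : i ≤ D := by rw [Finset.mem_range] at hi; omega
    unfold Lagrange.basis
    rw [eval_prod, norm_prod]
    have h3 : ∀ j ∈ (Finset.range (D + 1)).erase i,
        ‖(Lagrange.basisDivisor (w i) (w j)).eval x‖ ≤ 2 * s / g * |(i : ℝ) - j|⁻¹ := by
      intro j hj
      rw [Finset.mem_erase, Finset.mem_range] at hj
      have h4 : 0 < |(i : ℝ) - j| := by
        rw [abs_pos, sub_ne_zero]
        exact_mod_cast hj.1.symm
      have h5 := hsep i hi' j (by omega)
      unfold Lagrange.basisDivisor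
      rw [eval_mul, eval_C, eval_sub, eval_X, eval_C, norm_mul, norm_inv]
      have h6 : ‖x - w j‖ ≤ 2 * s := by
        calc ‖x - w j‖ = ‖(x - c) - (w j - c)‖ := by ring_nf
          _ ≤ ‖x - c‖ + ‖w j - c‖ := norm_sub_le _ _
          _ ≤ 2 * s := by have := hw j (by omega); linarith
      calc ‖w i - w j‖⁻¹ * ‖x - w j‖ ≤ (g * |(i : ℝ) - j|)⁻¹ * (2 * s) := by gcongr
        _ = _ := by rw [mul_inv]; ring
    calc ∏ j ∈ (Finset.range (D + 1)).erase i, ‖(Lagrange.basisDivisor (w i) (w j)).eval x‖
        ≤ ∏ j ∈ (Finset.range (D + 1)).erase i, (2 * s / g * |(i : ℝ) - j|⁻¹) :=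
          Finset.prod_le_prod (fun _ _ => norm_nonneg _) h3
      _ = (2 * s / g) ^ D * ((i.factorial : ℝ) * ((D - i).factorial : ℝ))⁻¹ := by
          rw [Finset.prod_mul_distrib, Finset.prod_const, Finset.card_erase_of_mem hi,
            Finset.card_range, Finset.prod_inv_distrib, prod_fact D i hi']
          simp
      _ ≤ (2 * s / g) ^ D * (2 ^ D / D.factorial) := by
          have h7 : (D.factorial : ℝ) = (D.choose i : ℝ) * (i.factorial * (D - i).factorial) := by
            rw [← mul_assoc]
            exact_mod_cast (Nat.choose_mul_factorial_mul_factorial hi').symm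
          have h8 : (D.choose i : ℝ) ≤ 2 ^ D := by exact_mod_cast Nat.choose_le_two_pow D i
          have h9 : (0 : ℝ) < i.factorial * (D - i).factorial := by positivity
          have h10 : (0 : ℝ) < D.factorial := by positivity
          apply mul_le_mul_of_nonneg_left _ (by positivity)
          rw [inv_eq_one_div, div_le_div_iff₀ h9 h10, one_mul]
          conv_lhs => rw [h7]
          gcongr
      _ = (4 * s / g) ^ D / D.factorial := by
          rw [← mul_div_assoc, ← mul_pow]
          congr 2
          ring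
  rw [h2]
  calc ‖∑ i ∈ Finset.range (D + 1), p.eval (w i) *
        (Lagrange.basis (Finset.range (D + 1)) w i).eval x‖
      ≤ ∑ i ∈ Finset.range (D + 1), ‖p.eval (w i) *
        (Lagrange.basis (Finset.range (D + 1)) w i).eval x‖ := norm_sum_le _ _
    _ ≤ ∑ i ∈ Finset.range (D + 1), B * ((4 * s / g) ^ D / D.factorial) := by
        apply Finset.sum_le_sum
        intro i hi
        have hi' : i ≤ D := by rw [Finset.mem_range] at hi; omega
        rw [norm_mul]
        have := hb i hi
        have := hpB i hi'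
        gcongr
    _ = (D + 1) * (B * ((4 * s / g) ^ D / D.factorial)) := by
        rw [Finset.sum_const, Finset.card_range, nsmul_eq_mul]
        push_cast
        ring
    _ ≤ 2 ^ D * (B * ((4 * s / g) ^ D / D.factorial)) := by
        have : (D : ℝ) + 1 ≤ 2 ^ D := by exact_mod_cast Nat.lt_two_pow_self (n := D)
        gcongr
    _ = B * ((8 * s / g) ^ D / D.factorial) := by
        have : (8 * s / g) ^ D = 2 ^ D * (4 * s / g) ^ D := by
          rw [← mul_pow]; congr 1; ring
        rw [this]
        ring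

/-- The same with separation proportional to `1 / D`. -/
theorem lag' {D : ℕ} (hD : 1 ≤ D) {c : ℂ} {s m B : ℝ} (hs : 0 < s) (hm : 0 < m) (hB : 0 ≤ B)
    (w : ℕ → ℂ) (hw : ∀ i ≤ D, ‖w i - c‖ ≤ s)
    (hsep : ∀ i ≤ D, ∀ j ≤ D, m * s * |(i : ℝ) - j| / D ≤ ‖w i - w j‖) (p : ℂ[X])
    (hp : p.degree < (D + 1 : ℕ)) (hpB : ∀ i ≤ D, ‖p.eval (w i)‖ ≤ B) {x : ℂ} (hx : ‖x - c‖ ≤ s) :
    ‖p.eval x‖ ≤ B * (8 * Real.exp 1 / m) ^ D := by
  have hD0 : (0 : ℝ) < D := by exact_mod_cast hD
  refine (lag hs (g := m * s / D) (by positivity) hB w hw (fun i hi j hj => by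
    refine le_trans (le_of_eq ?_) (hsep i hi j hj)
    ring) p hp hpB hx).trans ?_
  apply mul_le_mul_of_nonneg_left _ hB
  have e : 8 * s / (m * s / D) = 8 / m * D := by field_simp
  rw [e, mul_pow, mul_div_assoc]
  have h1 : (D : ℝ) ^ D / D.factorial ≤ Real.exp D := Real.pow_div_factorial_le_exp D hD0.le D
  have h2 : Real.exp D = Real.exp 1 ^ D := by rw [← Real.exp_nat_mul, mul_one]
  calc (8 / m) ^ D * ((D : ℝ) ^ D / D.factorial) ≤ (8 / m) ^ D * Real.exp 1 ^ D := by
        rw [← h2]; gcongr
    _ = _ := by rw [← mul_pow]; congr 1; ring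

end Pool.Agent.T2H09.LW
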