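import Mathlib

/-!
# Equidistant levels in large jumps
-/

set_option autoImplicit false
open Set Filter Topology Metric

namespace Pool.Agent.T2H09.LW

theorem sel (κ : ℕ → ℝ) {x : ℝ} (h0 : κ 0 ≤ x) {M D : ℕ} (hD : 1 ≤ D)
    (hx : x + 2 ≤ κ M) : ∃ s0 : ℝ, x < s0 ∧ s0 ≤ x + 1 ∧ ∀ i ≤ D, ∃ k, 1 ≤ k ∧ k ≤ M ∧
      κ (k - 1) < s0 + i / D ∧ s0 + i / D ≤ κ k ∧
      1 / ((D : ℝ) * (M + 1)) ≤ κ k - κ (k - 1) := by
  classical
  by_contra hcon
  push Not at hcon
  have hD0 : (0 : ℝ) < D := by exact_mod_cast hD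
  have hD1 : (1 : ℝ) ≤ D := by exact_mod_cast hD
  have hM0 : (0 : ℝ) < (M : ℝ) + 1 := by positivity
  have hθ : ∀ θ : ℕ, ∃ i k : ℕ, θ ≤ M → (i ≤ D ∧ 1 ≤ k ∧ k ≤ M ∧
      κ (k - 1) < x + (θ + 1) / (D * (M + 1)) + i / D ∧
      x + (θ + 1) / (D * (M + 1)) + i / D ≤ κ k ∧ κ k - κ (k - 1) < 1 / (D * (M + 1))) := by
    intro θ
    by_cases hθM : θ ≤ M
    · have hθM' : (θ : ℝ) ≤ M := by exact_mod_cast hθM
      have h1 : 0 < ((θ : ℝ) + 1) / (D * (M + 1)) := by positivity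
      have h2 : ((θ : ℝ) + 1) / (D * (M + 1)) ≤ 1 := by
        rw [div_le_one (by positivity)]
        nlinarith
      obtain ⟨i, hi, hik⟩ := hcon (x + (θ + 1) / (D * (M + 1))) (by linarith) (by linarith)
      have h3 : (i : ℝ) / D ≤ 1 := by
        rw [div_le_one hD0]
        exact_mod_cast hi
      have h3' : 0 ≤ (i : ℝ) / D := by positivity
      have hex : ∃ k, x + (θ + 1) / (D * (M + 1)) + i / D ≤ κ k := ⟨M, by linarith⟩
      have h4 := Nat.find_spec hex
      have h5 : Nat.find hex ≤ M := Nat.find_min' hex (by linarith)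
      have h6 : 1 ≤ Nat.find hex := by
        by_contra hlt
        have : Nat.find hex = 0 := by omega
        rw [this] at h4
        linarith
      have h7 : κ (Nat.find hex - 1) < x + (θ + 1) / (D * (M + 1)) + i / D := by
        have := Nat.find_min hex (m := Nat.find hex - 1) (by omega)
        exact not_le.mp this
      exact ⟨i, Nat.find hex, fun _ => ⟨hi, h6, h5, h7, h4, hik _ h6 h5 h7 h4⟩⟩
    · exact ⟨0, 0, fun h => absurd h hθM⟩
  choose i k hik using hθ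
  obtain ⟨a, ha, b, hb, hab, hkab⟩ := Finset.exists_ne_map_eq_of_card_lt_of_maps_to
    (s := Finset.range (M + 1)) (t := Finset.Icc 1 M) (f := k) (by simp) (by
      intro θ hθ
      rw [Finset.coe_range, Set.mem_Iio] at hθ
      obtain ⟨-, h1, h2, -⟩ := hik θ (by omega)
      rw [Finset.coe_Icc, Set.mem_Icc]
      exact ⟨h1, h2⟩)
  rw [Finset.mem_range] at ha hb
  obtain ⟨-, -, -, a4, a5, a6⟩ := hik a (by omega)
  obtain ⟨-, -, -, b4, b5, -⟩ := hik b (by omega)
  rw [hkab] at a4 a5 a6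
  have e : ∀ t j : ℕ, x + ((t : ℝ) + 1) / (D * (M + 1)) + j / D =
      x + ((t : ℝ) + 1 + j * (M + 1)) / (D * (M + 1)) := by
    intro t j
    field_simp
    ring
  rw [e] at a4 a5 b4 b5
  have hDM : (0 : ℝ) < D * (M + 1) := by positivity
  have h1 : ((a : ℝ) + 1 + i a * (M + 1)) / (D * (M + 1)) -
      ((b : ℝ) + 1 + i b * (M + 1)) / (D * (M + 1)) < 1 / (D * (M + 1)) := by linarith
  have h2 : ((b : ℝ) + 1 + i b * (M + 1)) / (D * (M + 1)) -
      ((a : ℝ) + 1 + i a * (M + 1)) / (D * (M + 1)) < 1 / (D * (M + 1)) := by linarith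
  rw [← sub_div, div_lt_div_iff_of_pos_right hDM] at h1 h2
  have h3 : (a : ℤ) + i a * (M + 1) - (b + i b * (M + 1)) < 1 := by
    have : ((a : ℝ) + i a * (M + 1) - (b + i b * (M + 1))) < 1 := by linarith
    exact_mod_cast this
  have h4 : (b : ℤ) + i b * (M + 1) - (a + i a * (M + 1)) < 1 := by
    have : ((b : ℝ) + i b * (M + 1) - (a + i a * (M + 1))) < 1 := by linarith
    exact_mod_cast this
  have h5 : (a : ℤ) + i a * (M + 1) = b + i b * (M + 1) := by omega
  have h6 : a + i a * (M + 1) = b + i b * (M + 1) := by exact_mod_cast h5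
  have h7 : (a + i a * (M + 1)) % (M + 1) = a := by
    rw [Nat.add_mul_mod_self_right, Nat.mod_eq_of_lt ha]
  have h8 : (b + i b * (M + 1)) % (M + 1) = b := by
    rw [Nat.add_mul_mod_self_right, Nat.mod_eq_of_lt hb]
  rw [h6, h8] at h7
  exact hab h7.symm

end Pool.Agent.T2H09.LW
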