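import Pool.Agent.T2H09.LW.Blk
import Pool.Agent.T2H09.LW.Sel
import Pool.Agent.T2H09.LV.Main

/-!
# The main estimate, with logarithmic loss
-/

set_option autoImplicit false
open Set Filter Topology Metric MeasureTheory Polynomial
open scoped ENNReal

namespace Pool.Agent.T2H09.LW

open Pool.Agent.W746.LD Pool.Agent.T2H09.DH Pool.Agent.T2H09.LU Pool.Agent.T2H09.LV N62a1eb23

/-- The nodes in the holes. -/
theorem nodes {n : ℕ} (hn : 2 ≤ n) {c : ℂ} (hc : c ∈ multibrotSet n) {M : ℕ}
    {L : ℝ} (hL : ∀ k, kap n c (k + 1) ≤ kap n c k + L)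
    {h : ℝ} (hh : h = 1 / (8 * (3 ^ n + 2))) (hLh : h * L ≤ 1) {x : ℝ} (hx0 : 0 ≤ x)
    (hxM : x + 2 ≤ kap n c M) {D : ℕ} (hD : 1 ≤ D) :
    ∃ w : ℕ → ℂ, (∀ j ≤ D, ‖w j - c‖ ≤ Real.exp (-x)) ∧
      (∀ j ≤ D, ∀ k ≤ D, Real.exp (-(2 + L)) * h / 4 * Real.exp (-x) * |(j : ℝ) - k| / D ≤
        ‖w j - w k‖) ∧
      ∀ j ≤ D, ∃ k, 1 ≤ k ∧ kap n c k ≤ x + 2 + L ∧ 0 < kap n c k - kap n c (k - 1) ∧
        1 / ((D : ℝ) * (M + 1)) ≤ kap n c k - kap n c (k - 1) ∧
        w j ≠ c ∧ ‖w j - c‖ ≤ 3 / 2 * dl n c k ∧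
        ∀ z ∈ ball (w j) (h / 2 * (kap n c k - kap n c (k - 1)) * dl n c k),
          z ∈ UU n c (k - 1) ∧ z ∉ UU n c (k + 1) := by
  have hD0 : (0 : ℝ) < D := by exact_mod_cast hD
  have h3n : (1 : ℝ) ≤ 3 ^ n := one_le_pow₀ (by norm_num)
  have hh0 : 0 < h := by rw [hh]; positivity
  have hh1 : h ≤ 1 := by
    rw [hh, div_le_one (by positivity)]
    linarith
  have hmono : Monotone (kap n c) := monotone_nat_of_le_succ fun k => by
    unfold kap
    have := Real.log_le_log (dl_pos hn hc (k + 1)) (dl_anti hn hc k)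
    linarith
  have hk0 : kap n c 0 ≤ 0 := by
    unfold kap
    have := Real.log_nonneg (dl_zero hn hc)
    linarith
  obtain ⟨s0, hs1, hs2, hsel⟩ := sel (kap n c) (x := x) (by linarith) (M := M) hD hxM
  have hDM : (0 : ℝ) < (D : ℝ) * (M + 1) := by positivity
  have hall : ∀ j : ℕ, ∃ k : ℕ, ∃ y : ℂ, j ≤ D → (1 ≤ k ∧ kap n c (k - 1) < s0 + j / D ∧
      s0 + j / D ≤ kap n c k ∧ 1 / ((D : ℝ) * (M + 1)) ≤ kap n c k - kap n c (k - 1) ∧
      ‖y - c‖ = dl n c k ∧ ∀ z ∈ ball y (h * (kap n c k - kap n c (k - 1)) * dl n c k),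
        z ∈ UU n c (k - 1) ∧ z ∉ UU n c (k + 1)) := by
    intro j
    by_cases hj : j ≤ D
    · obtain ⟨k, k1, -, k3, k4, k5⟩ := hsel j hj
      have hlam : 0 < kap n c k - kap n c (k - 1) := lt_of_lt_of_le (by positivity) k5
      obtain ⟨y, y1, y2⟩ := hole2 hn hc k1 hlam (by
        have h4 : Real.exp (kap n c k - kap n c (k - 1)) * dl n c k = dl n c (k - 1) := by
          rw [← exp_kap hn hc k, ← exp_kap hn hc (k - 1), ← Real.exp_add]
          congr 1
          ring
        have h5 := Real.add_one_le_exp (kap n c k - kap n c (k - 1))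
        have h6 := (dl_pos hn hc k).le
        rw [← h4]
        gcongr
        linarith)
      rw [← hh] at y2
      exact ⟨k, y, fun _ => ⟨k1, k3, k4, k5, y1, y2⟩⟩
    · exact ⟨0, 0, fun h => absurd h hj⟩
  choose k y hky using hall
  obtain ⟨σ, hσ⟩ : ∃ σ : ℕ → ℝ, σ = fun j : ℕ => s0 + (j : ℝ) / D := ⟨_, rfl⟩
  obtain ⟨t, ht⟩ : ∃ t : ℕ → ℝ, t = fun j => kap n c (k j) - h / 4 * (kap n c (k j) - σ j) :=
    ⟨_, rfl⟩
  have hσx : ∀ j, x < σ j := by
    intro j
    rw [hσ]
    have : 0 ≤ (j : ℝ) / D := by positivity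
    simp only
    linarith
  have hσ2 : ∀ j ≤ D, σ j ≤ x + 2 := by
    intro j hj
    rw [hσ]
    have : (j : ℝ) / D ≤ 1 := by
      rw [div_le_one hD0]
      exact_mod_cast hj
    simp only
    linarith
  have hσk : ∀ j ≤ D, σ j ≤ kap n c (k j) := by
    intro j hj
    rw [hσ]
    exact (hky j hj).2.2.1
  have hσk' : ∀ j ≤ D, kap n c (k j - 1) < σ j := by
    intro j hj
    rw [hσ]
    exact (hky j hj).2.1
  have hkL : ∀ j ≤ D, kap n c (k j) ≤ kap n c (k j - 1) + L := by
    intro j hj
    have h1 := hL (k j - 1)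
    have h2 := (hky j hj).1
    rwa [Nat.sub_add_cancel h2] at h1
  have hkx : ∀ j ≤ D, kap n c (k j) ≤ x + 2 + L := by
    intro j hj
    have h1 := hkL j hj
    have h2 := hσk' j hj
    have h3 := hσ2 j hj
    linarith
  have htσ : ∀ j ≤ D, σ j ≤ t j := by
    intro j hj
    rw [ht]
    have h1 := hσk j hj
    simp only
    nlinarith
  have htk : ∀ j ≤ D, t j ≤ kap n c (k j) := by
    intro j hj
    rw [ht]
    have h1 := hσk j hj
    simp only
    nlinarith
  have hτ : ∀ j ≤ D, kap n c (k j) - t j ≤ h / 4 * (kap n c (k j) - kap n c (k j - 1)) := by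
    intro j hj
    rw [ht]
    have h1 := hσk' j hj
    simp only
    have : kap n c (k j) - (kap n c (k j) - h / 4 * (kap n c (k j) - σ j)) =
        h / 4 * (kap n c (k j) - σ j) := by ring
    rw [this]
    gcongr
  have hτ1 : ∀ j ≤ D, kap n c (k j) - t j ≤ 1 / 4 := by
    intro j hj
    have h1 := hτ j hj
    have h2 := hkL j hj
    have h3 : h / 4 * (kap n c (k j) - kap n c (k j - 1)) ≤ h / 4 * L := by
      gcongr
      linarith
    linarith
  have hexp2 : ∀ τ : ℝ, 0 ≤ τ → τ ≤ 1 → Real.exp τ ≤ 1 + 2 * τ := by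
    intro τ h1 h2
    have h3 := Real.abs_exp_sub_one_sub_id_le (x := τ) (by rw [abs_of_nonneg h1]; exact h2)
    have h4 := (abs_le.mp h3).2
    nlinarith
  refine ⟨fun j => c + (Real.exp (kap n c (k j) - t j) : ℝ) * (y j - c), ?_, ?_, ?_⟩
  · intro j hj
    have h1 := (hky j hj).2.2.2.2.1
    rw [add_sub_cancel_left, norm_mul, h1, Complex.norm_real, Real.norm_eq_abs,
      abs_of_pos (Real.exp_pos _), ← exp_kap hn hc (k j), ← Real.exp_add]
    apply Real.exp_le_exp.mpr
    have h2 := htσ j hj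
    have h3 := hσx j
    linarith
  · have hnorm : ∀ j ≤ D, ‖(c + (Real.exp (kap n c (k j) - t j) : ℝ) * (y j - c)) - c‖ =
        Real.exp (-t j) := by
      intro j hj
      have h1 := (hky j hj).2.2.2.2.1
      rw [add_sub_cancel_left, norm_mul, h1, Complex.norm_real, Real.norm_eq_abs,
        abs_of_pos (Real.exp_pos _), ← exp_kap hn hc (k j), ← Real.exp_add]
      congr 1
      ring
    have hlt : ∀ i ≤ D, ∀ j ≤ D, i < j →
        Real.exp (-(2 + L)) * h / 4 * Real.exp (-x) * ((j : ℝ) - i) / D ≤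
        ‖(c + (Real.exp (kap n c (k i) - t i) : ℝ) * (y i - c)) -
          (c + (Real.exp (kap n c (k j) - t j) : ℝ) * (y j - c))‖ := by
      intro i hi j hj hij
      have h1 := norm_sub_norm_le
        ((c + (Real.exp (kap n c (k i) - t i) : ℝ) * (y i - c)) - c)
        ((c + (Real.exp (kap n c (k j) - t j) : ℝ) * (y j - c)) - c)
      rw [hnorm i hi, hnorm j hj, sub_sub_sub_cancel_right] at h1
      refine le_trans ?_ h1
      have hij' : (i : ℝ) < j := by exact_mod_cast hij
      have hσij : σ j - σ i = ((j : ℝ) - i) / D := by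
        rw [hσ]
        simp only
        ring
      have hσlt : σ i < σ j := by
        have : 0 < ((j : ℝ) - i) / D := div_pos (by linarith) hD0
        linarith
      have hkij : kap n c (k i) ≤ kap n c (k j) := by
        apply hmono
        by_contra hlt
        push Not at hlt
        have h2 : kap n c (k j) ≤ kap n c (k i - 1) := hmono (by omega)
        have h3 := hσk j hj
        have h4 := hσk' i hi
        linarith
      have htij : h / 4 * (((j : ℝ) - i) / D) ≤ t j - t i := by
        rw [← hσij, ht]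
        simp only
        have : 0 ≤ (1 - h / 4) * (kap n c (k j) - kap n c (k i)) := by
          apply mul_nonneg <;> linarith
        linarith
      have h2 : Real.exp (-t i) = Real.exp (-t j) * Real.exp (t j - t i) := by
        rw [← Real.exp_add]
        congr 1
        ring
      have h3 := Real.add_one_le_exp (t j - t i)
      have h4 : Real.exp (-(2 + L)) * Real.exp (-x) ≤ Real.exp (-t j) := by
        rw [← Real.exp_add]
        apply Real.exp_le_exp.mpr
        have h5 := htk j hj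
        have h6 := hkx j hj
        linarith
      have h5 : 0 ≤ h / 4 * (((j : ℝ) - i) / D) := by
        have : 0 < ((j : ℝ) - i) / D := div_pos (by linarith) hD0
        positivity
      rw [h2]
      calc Real.exp (-(2 + L)) * h / 4 * Real.exp (-x) * ((j : ℝ) - i) / D
          = (Real.exp (-(2 + L)) * Real.exp (-x)) * (h / 4 * (((j : ℝ) - i) / D)) := by ring
        _ ≤ Real.exp (-t j) * (t j - t i) := by gcongr
        _ ≤ Real.exp (-t j) * (Real.exp (t j - t i) - 1) :=
            mul_le_mul_of_nonneg_left (by linarith) (Real.exp_pos _).le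
        _ = _ := by ring
    intro i hi j hj
    rcases lt_trichotomy i j with hij | hij | hij
    · have h1 := hlt i hi j hj hij
      have hij' : (i : ℝ) < j := by exact_mod_cast hij
      rw [abs_sub_comm, abs_of_pos (by linarith)]
      exact h1
    · rw [hij, sub_self, abs_zero, mul_zero, zero_div]
      exact norm_nonneg _
    · have h1 := hlt j hj i hi hij
      have hij' : (j : ℝ) < i := by exact_mod_cast hij
      rw [abs_of_pos (by linarith), norm_sub_rev]
      exact h1
  · intro j hj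
    obtain ⟨k1, k2, k3, k4, k5, k6⟩ := hky j hj
    have hlam : 0 < kap n c (k j) - kap n c (k j - 1) := lt_of_lt_of_le (by positivity) k4
    have hδ := dl_pos hn hc (k j)
    have hτ0 : 0 ≤ kap n c (k j) - t j := by linarith [htk j hj]
    have hE := hexp2 _ hτ0 (by linarith [hτ1 j hj])
    have hE1 := Real.one_le_exp hτ0
    have hτj := hτ j hj
    have hτ1j := hτ1 j hj
    refine ⟨k j, k1, hkx j hj, hlam, k4, ?_, ?_, ?_⟩
    · intro heq
      have h1 : ((Real.exp (kap n c (k j) - t j) : ℝ) : ℂ) * (y j - c) = 0 := by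
        linear_combination heq
      have h2 : ‖((Real.exp (kap n c (k j) - t j) : ℝ) : ℂ) * (y j - c)‖ = 0 := by
        rw [h1, norm_zero]
      rw [norm_mul, k5, Complex.norm_real, Real.norm_eq_abs, abs_of_pos (Real.exp_pos _)] at h2
      have := mul_pos (Real.exp_pos (kap n c (k j) - t j)) hδ
      linarith
    · rw [add_sub_cancel_left, norm_mul, k5, Complex.norm_real, Real.norm_eq_abs,
        abs_of_pos (Real.exp_pos _)]
      apply mul_le_mul_of_nonneg_right _ hδ.le
      linarith
    · intro z hz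
      apply k6
      rw [mem_ball, dist_eq_norm] at hz ⊢
      have h1 : (c + ((Real.exp (kap n c (k j) - t j) : ℝ) : ℂ) * (y j - c)) - y j =
          ((Real.exp (kap n c (k j) - t j) - 1 : ℝ) : ℂ) * (y j - c) := by
        push_cast
        ring
      have h2 : ‖(c + ((Real.exp (kap n c (k j) - t j) : ℝ) : ℂ) * (y j - c)) - y j‖ ≤
          h / 2 * (kap n c (k j) - kap n c (k j - 1)) * dl n c (k j) := by
        rw [h1, norm_mul, k5, Complex.norm_real, Real.norm_eq_abs, abs_of_nonneg (by linarith)]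
        apply mul_le_mul_of_nonneg_right _ hδ.le
        linarith
      calc ‖z - y j‖ = ‖(z - (c + ((Real.exp (kap n c (k j) - t j) : ℝ) : ℂ) * (y j - c))) +
            ((c + ((Real.exp (kap n c (k j) - t j) : ℝ) : ℂ) * (y j - c)) - y j)‖ := by ring_nf
        _ ≤ _ := norm_add_le _ _
        _ < h * (kap n c (k j) - kap n c (k j - 1)) * dl n c (k j) := by linarith

end Pool.Agent.T2H09.LW
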