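import Pool.Agent.T2H09.LW.Main2

/-!
# The main estimate, with logarithmic loss (assembly)
-/

set_option autoImplicit false
open Set Filter Topology Metric MeasureTheory Polynomial
open scoped ENNReal

namespace Pool.Agent.T2H09.LW

open Pool.Agent.W746.LD Pool.Agent.T2H09.DH Pool.Agent.T2H09.LU Pool.Agent.T2H09.LV N62a1eb23

/-- The function on the disc without deep returns. -/
theorem gg_disc {n : ℕ} (hn : 2 ≤ n) {c : ℂ} (hc : c ∈ multibrotSet n) {M : ℕ}
    (h0 : ∀ j < M, orb n c c j ≠ 0) (hP1 : 1 ≤ ‖P n c c M‖) {J' : ℕ} (hJM : J' + 1 ≤ M)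
    {m : ℝ} (hdeep : ∀ j, 1 ≤ j → j < J' + 1 → kk n c j ≤ m) :
    DifferentiableOn ℂ (gg n c J') (ball c (Real.exp (-m) / 2)) ∧
    ∀ w ∈ ball c (Real.exp (-m) / 2), ‖gg n c J' w‖ ≤ Real.exp (lW n M) := by
  have hM : 1 ≤ M := by omega
  have hM1 : (1 : ℝ) ≤ M := by exact_mod_cast hM
  have hn1 : (1 : ℝ) ≤ n := by exact_mod_cast (by omega : 1 ≤ n)
  have hW1 : (1 : ℝ) ≤ (2 * n) ^ M := one_le_pow₀ (by linarith)
  have hW : (1 : ℝ) ≤ M * (2 * n) ^ M := by nlinarith
  set R : ℝ := Real.exp (-m) / 2 with hR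
  have hR0 : 0 < R := by positivity
  have hρ : ∀ i < J', Real.exp (-m) ≤ ‖orb n c c (i + 1) - c‖ := by
    intro i hi
    rw [← exp_kk0 h0 (by omega : 1 ≤ i + 1) (by omega : i + 1 ≤ M)]
    apply Real.exp_le_exp.mpr
    have := hdeep (i + 1) (by omega) (by omega)
    linarith
  have hfar : ∀ w ∈ ball c R, ∀ i < J', R ≤ ‖w - orb n c c (i + 1)‖ := by
    intro w hw i hi
    have h1 : ‖w - c‖ < R := by rwa [mem_ball, dist_eq_norm] at hw
    have h2 := hρ i hi
    have h3 : ‖orb n c c (i + 1) - c‖ ≤ ‖w - orb n c c (i + 1)‖ + ‖w - c‖ := by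
      calc ‖orb n c c (i + 1) - c‖ = ‖(w - c) - (w - orb n c c (i + 1))‖ := by ring_nf
        _ ≤ ‖w - c‖ + ‖w - orb n c c (i + 1)‖ := norm_sub_le _ _
        _ = _ := add_comm _ _
    linarith
  constructor
  · intro w hw
    apply DifferentiableAt.differentiableWithinAt
    unfold gg
    apply DifferentiableAt.const_add
    apply DifferentiableAt.mul
    · exact differentiableAt_id.sub_const _
    · apply DifferentiableAt.fun_sum
      intro i hi
      apply DifferentiableAt.div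
      · exact differentiableAt_const _
      · exact differentiableAt_id.sub_const _
      · have := hfar w hw i (Finset.mem_range.mp hi)
        intro h1
        rw [h1, norm_zero] at this
        linarith
  · intro w hw
    have h1 : ‖w - c‖ < R := by rwa [mem_ball, dist_eq_norm] at hw
    unfold lW
    rw [Real.exp_log (by linarith)]
    unfold gg
    have h2 : ‖(w - c) * ∑ i ∈ Finset.range J', (P n c c (i + 1))⁻¹ / (w - orb n c c (i + 1))‖ ≤
        J' * (2 * n) ^ M := by
      rw [Finset.mul_sum]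
      calc ‖∑ i ∈ Finset.range J', (w - c) * ((P n c c (i + 1))⁻¹ / (w - orb n c c (i + 1)))‖
          ≤ ∑ i ∈ Finset.range J', ‖(w - c) * ((P n c c (i + 1))⁻¹ / (w - orb n c c (i + 1)))‖ :=
            norm_sum_le _ _
        _ ≤ ∑ i ∈ Finset.range J', (2 * n : ℝ) ^ M := by
            apply Finset.sum_le_sum
            intro i hi
            rw [Finset.mem_range] at hi
            have h3 := hfar w hw i hi
            have h4 := inv_le hn hc hP1 (by omega : i + 1 ≤ M)
            rw [norm_mul, norm_div]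
            have h5 : 0 < ‖w - orb n c c (i + 1)‖ := by linarith
            calc ‖w - c‖ * (‖(P n c c (i + 1))⁻¹‖ / ‖w - orb n c c (i + 1)‖)
                ≤ ‖w - orb n c c (i + 1)‖ * (‖(P n c c (i + 1))⁻¹‖ / ‖w - orb n c c (i + 1)‖) := by
                  gcongr
                  linarith
              _ = ‖(P n c c (i + 1))⁻¹‖ := by field_simp
              _ ≤ _ := h4
        _ = J' * (2 * n : ℝ) ^ M := by rw [Finset.sum_const, Finset.card_range, nsmul_eq_mul]
    have h3 : (J' : ℝ) + 1 ≤ M := by exact_mod_cast hJM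
    calc ‖1 + (w - c) * ∑ i ∈ Finset.range J', (P n c c (i + 1))⁻¹ / (w - orb n c c (i + 1))‖
        ≤ ‖(1 : ℂ)‖ + J' * (2 * n) ^ M := (norm_add_le _ _).trans (by linarith)
      _ ≤ 1 * (2 * n) ^ M + J' * (2 * n) ^ M := by rw [norm_one]; linarith
      _ = (J' + 1) * (2 * n) ^ M := by ring
      _ ≤ _ := by gcongr

theorem main_est2 {n : ℕ} (hn : 2 ≤ n) {c : ℂ} (hc : c ∈ multibrotSet n) {M : ℕ}
    (h0 : ∀ j < M, orb n c c j ≠ 0) (hP1 : 1 ≤ ‖P n c c M‖) {J : ℕ} (hJ1 : 1 ≤ J) (hJM : J ≤ M)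
    {ε : ℝ} (hε : 0 < ε)
    (hmass : ∫⁻ w in closedBall (0 : ℂ) 3, ‖er n c J w‖ₑ ≤ ENNReal.ofReal ε)
    {L : ℝ} (hL0 : 0 ≤ L) (hL : ∀ k, kap n c (k + 1) ≤ kap n c k + L)
    {m : ℝ} (hm : 0 ≤ m) (hdeep : ∀ j, 1 ≤ j → j < J → kk n c j ≤ m)
    {h m0 K : ℝ} (hh : h = 1 / (8 * (3 ^ n + 2))) (hLh : h * L ≤ 1)
    (hm0 : m0 = Real.exp (-(2 + L)) * h / 4) (hK : K = 8 * Real.exp 1 / m0) {q : ℕ}
    (hq : lW n M + 2 ≤ 2 ^ q) {Dm : ℕ}
    (hDm : ⌊(lW n M + (2 * Real.log (K + 2) + 2)) / 2⌋₊ + 1 ≤ Dm)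
    (hx : m + Real.log (4 * K ^ 2) + q * Real.log (2 * K ^ 2) + 4 + L ≤ aa n c M) :
    -(2 * Real.log (K + 2) + 2) < Real.log ε + Real.log (12 * (Dm * (M + 1)) ^ 2 / h ^ 2) +
      (m + Real.log (4 * K ^ 2) + q * Real.log (2 * K ^ 2) + 2 + L) := by
  have hM : 1 ≤ M := hJ1.trans hJM
  have hM1 : (1 : ℝ) ≤ M := by exact_mod_cast hM
  have hM0 : (0 : ℝ) < M := by linarith
  have hn1 : (1 : ℝ) ≤ n := by exact_mod_cast (by omega : 1 ≤ n)
  have h3n : (1 : ℝ) ≤ 3 ^ n := one_le_pow₀ (by norm_num)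
  have hh0 : 0 < h := by rw [hh]; positivity
  have hh1 : h ≤ 1 := by
    rw [hh, div_le_one (by positivity)]
    linarith
  have hm00 : 0 < m0 := by rw [hm0]; positivity
  have hm01 : m0 ≤ 1 := by
    rw [hm0]
    have h1 : Real.exp (-(2 + L)) ≤ 1 := by rw [Real.exp_le_one_iff]; linarith
    have h2 : 0 ≤ Real.exp (-(2 + L)) := (Real.exp_pos _).le
    nlinarith
  have hK8 : 8 * Real.exp 1 ≤ K := by
    rw [hK, le_div_iff₀ hm00]
    nlinarith [Real.exp_pos 1]
  have hexp1 : 2 ≤ Real.exp 1 := by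
    have := Real.add_one_le_exp (1 : ℝ)
    linarith
  have hK16 : 16 ≤ K := by linarith
  have hK0 : 0 < K := by linarith
  have hK1 : 1 ≤ K ^ 2 := one_le_pow₀ (by linarith)
  have hlK4 : 0 ≤ Real.log (4 * K ^ 2) := Real.log_nonneg (by linarith)
  have hlK2 : 0 ≤ Real.log (2 * K ^ 2) := Real.log_nonneg (by linarith)
  have hlW : 0 ≤ lW n M := by
    have hW1 : (1 : ℝ) ≤ (2 * n) ^ M := one_le_pow₀ (by linarith)
    exact Real.log_nonneg (by nlinarith)
  have hPM : 0 < ‖P n c c M‖ := by linarith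
  have hkM : aa n c M - 2 < kap n c M := by
    unfold kap aa
    have h1 := Real.log_le_log (mul_pos (dl_pos hn hc M) hPM) (dl_der hn hc M)
    rw [Real.log_mul (dl_pos hn hc M).ne' hPM.ne'] at h1
    have h2 : Real.log 3 < 2 := by
      have := Real.log_lt_sub_one_of_pos (show (0 : ℝ) < 3 by norm_num) (by norm_num)
      linarith
    linarith
  obtain ⟨J', rfl⟩ : ∃ J', J = J' + 1 := ⟨J - 1, by omega⟩
  obtain ⟨hG, hGl⟩ := gg_disc hn hc h0 hP1 hJM hdeep
  obtain ⟨e, he⟩ : ∃ e, e = -(2 * Real.log (K + 2) + 2) := ⟨_, rfl⟩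
  rw [← he]
  by_contra hcon
  push Not at hcon
  obtain ⟨x, hxd⟩ : ∃ x : ℕ → ℝ, x = fun i : ℕ => m + Real.log (4 * K ^ 2) +
    (i : ℝ) * Real.log (2 * K ^ 2) := ⟨_, rfl⟩
  have hx0 : ∀ i, 0 ≤ x i := by
    intro i
    rw [hxd]
    have : 0 ≤ (i : ℝ) * Real.log (2 * K ^ 2) := by positivity
    simp only
    linarith
  have hxq : ∀ i < q, x i ≤ m + Real.log (4 * K ^ 2) + q * Real.log (2 * K ^ 2) := by
    intro i hi
    rw [hxd]
    have h1 : (i : ℝ) ≤ q := by exact_mod_cast hi.le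
    have h2 : (i : ℝ) * Real.log (2 * K ^ 2) ≤ q * Real.log (2 * K ^ 2) := by gcongr
    simp only
    linarith
  have h4K : Real.exp (-Real.log (4 * K ^ 2)) = 1 / (4 * K ^ 2) := by
    rw [Real.exp_neg, Real.exp_log (by positivity), one_div]
  have h2K : Real.exp (-Real.log (2 * K ^ 2)) = 1 / (2 * K ^ 2) := by
    rw [Real.exp_neg, Real.exp_log (by positivity), one_div]
  have hlt := blocks (G := gg n c J') (c := c) (m := m0) (K := K) (R' := Real.exp (-m) / 2) (e := e)
    (A := lW n M) hm00 hm01 hK hG hGl hlW he hq (fun i => Real.exp (-x i))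
    (fun i _ => Real.exp_pos _)
    (by
      have e1 : Real.exp (-x 0) = Real.exp (-m) * (1 / (4 * K ^ 2)) := by
        rw [← h4K, ← Real.exp_add]
        congr 1
        rw [hxd]
        simp only
        push_cast
        ring
      change K ^ 2 * Real.exp (-x 0) < Real.exp (-m) / 2
      rw [e1]
      have e2 : K ^ 2 * (Real.exp (-m) * (1 / (4 * K ^ 2))) = Real.exp (-m) / 4 := by field_simp
      rw [e2]
      have := Real.exp_pos (-m)
      linarith)
    (by
      intro i hi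
      have e1 : Real.exp (-x (i + 1)) = Real.exp (-x i) * (1 / (2 * K ^ 2)) := by
        rw [← h2K, ← Real.exp_add]
        congr 1
        rw [hxd]
        simp only
        push_cast
        ring
      change K ^ 2 * Real.exp (-x (i + 1)) < Real.exp (-x i)
      rw [e1]
      have e2 : K ^ 2 * (Real.exp (-x i) * (1 / (2 * K ^ 2))) = Real.exp (-x i) / 2 := by
        field_simp
      rw [e2]
      have := Real.exp_pos (-x i)
      linarith)
    (by
      intro i hi D hD1 hD2
      have hDle : D ≤ Dm := by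
        refine hD2.trans (le_trans (le_of_eq ?_) hDm)
        rw [he, sub_neg_eq_add]
      have hxi := hxq i hi
      obtain ⟨w, hw1, hw2, hw3⟩ := nodes hn hc (M := M) hL hh hLh (hx0 i) (by linarith) hD1
      refine ⟨w, hw1, ?_, ?_⟩
      · intro j hj k hk
        have := hw2 j hj k hk
        rw [← hm0] at this
        exact this
      · intro j hj
        obtain ⟨k, k1, k2, k3, k4, k5, k6, k7⟩ := hw3 j hj
        have hδ := dl_pos hn hc k
        obtain ⟨lam, hlam⟩ : ∃ lam, lam = kap n c k - kap n c (k - 1) := ⟨_, rfl⟩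
        rw [← hlam] at k3 k4 k7
        have hqd := qd_le hn hc (fun j hj => h0 j (by omega)) hε.le hmass k1
          (s := h / 2 * lam * dl n c k) (by positivity) k7
        rw [gg_eq n J' k5, norm_mul]
        have hD0 : (0 : ℝ) < D := by exact_mod_cast hD1
        have hDm' : (D : ℝ) ≤ Dm := by exact_mod_cast hDle
        have hlam' : 1 / lam ≤ Dm * (M + 1) := by
          rw [div_le_iff₀ k3]
          have h1 : 1 ≤ (D : ℝ) * (M + 1) * lam := by
            rw [div_le_iff₀ (by positivity)] at k4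
            linarith
          refine h1.trans ?_
          gcongr
        have hδ' : 1 / dl n c k ≤ Real.exp (x i + 2 + L) := by
          rw [← exp_kap hn hc k, one_div, ← Real.exp_neg, neg_neg]
          exact Real.exp_le_exp.mpr k2
        have hD0m : (0 : ℝ) < Dm := by linarith
        calc ‖w j - c‖ * ‖qd n c (J' + 1) (w j)‖
            ≤ 3 / 2 * dl n c k * (2 * ε / (h / 2 * lam * dl n c k) ^ 2) := by gcongr
          _ = 12 * ε / h ^ 2 * (1 / lam) ^ 2 * (1 / dl n c k) := by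
              field_simp
              norm_num
          _ ≤ 12 * ε / h ^ 2 * (Dm * (M + 1)) ^ 2 * Real.exp (x i + 2 + L) := by gcongr
          _ = Real.exp (Real.log ε + Real.log (12 * (Dm * (M + 1)) ^ 2 / h ^ 2) +
                (x i + 2 + L)) := by
              rw [Real.exp_add (Real.log ε + _) _, Real.exp_add (Real.log ε) _, Real.exp_log hε,
                Real.exp_log (by positivity)]
              ring
          _ ≤ Real.exp e := by
              apply Real.exp_le_exp.mpr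
              linarith)
  rw [gg_self, norm_one] at hlt
  exact lt_irrefl _ hlt

end Pool.Agent.T2H09.LW
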