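import Pool.Agent.T2H09.LW.Main3
import Pool.Agent.T2H09.LV.Trap

/-!
# The bound of the derivative without attracting cycles, abstract form
-/

set_option autoImplicit false
open Set Filter Topology Metric MeasureTheory
open scoped ENNReal

namespace Pool.Agent.T2H09.LW

open Pool.Agent.W746.LD Pool.Agent.T2H09.DH Pool.Agent.T2H09.LU Pool.Agent.T2H09.LV N62a1eb23

theorem quasi2 {n : ℕ} (hn : 2 ≤ n) {c : ℂ} (hc : c ∈ multibrotSet n) {M : ℕ} (hM : 1 ≤ M)
    (h0 : ∀ j < M, orb n c c j ≠ 0) (hP1 : 1 ≤ ‖P n c c M‖) {C : ℝ} (hC : 1 ≤ C)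
    (hnot : ∀ N, 1 ≤ N → N ≤ M → ∀ z, ¬ IsAttractingCycle (fun z => z ^ n + c) N z)
    {Q : ℝ} (hQ : 0 ≤ Q)
    (hmain : ∀ (J : ℕ) (m : ℝ), 1 ≤ J → J ≤ M → 0 ≤ m → (∀ j, 1 ≤ j → j < J → kk n c j ≤ m) →
      m + Q ≤ aa n c M → 0 ≤ Real.log (ep n c C J) + (Q + m)) {u : ℝ}
    (hu : Real.log C + Q + Real.log (5 + aa n c M) + Real.log M + 4 ≤ u) {l : ℕ}
    (hl : M < 2 ^ l) : aa n c M < (2 * l + 1) * u := by
  by_contra hcon
  push Not at hcon
  have hM1 : (1 : ℝ) ≤ M := by exact_mod_cast hM
  have hM0 : (0 : ℝ) < M := by linarith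
  have hlM : 0 ≤ Real.log M := Real.log_nonneg hM1
  have hC0 : 0 < C := by linarith
  have hlC : 0 ≤ Real.log C := Real.log_nonneg hC
  have hlog8' : Real.log 8 ≤ 3 := by
    rw [show (8 : ℝ) = 2 ^ 3 by norm_num, Real.log_pow]
    have := Real.log_le_sub_one_of_pos (show (0 : ℝ) < 2 by norm_num)
    push_cast
    linarith
  set a : ℝ := aa n c M with ha
  have ha0 : 0 ≤ a := Real.log_nonneg hP1
  have hla : 0 ≤ Real.log (5 + a) := Real.log_nonneg (by linarith)
  obtain ⟨u2, hu2⟩ : ∃ u2, u2 = Real.log C + Q := ⟨_, rfl⟩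
  have hu2u : u2 + Real.log (5 + a) + Real.log M + 4 ≤ u := by rw [hu2]; linarith
  have hu20 : 0 ≤ u2 := by rw [hu2]; linarith
  have hu0 : 0 < u := by linarith
  have hu1 : Q ≤ u2 := by rw [hu2]; linarith
  have hI : ∀ i : ℕ, i ≤ 2 * l → (i : ℝ) * u + u ≤ a := by
    intro i hi
    have h1 : (i : ℝ) ≤ 2 * l := by exact_mod_cast hi
    have h2 : (i : ℝ) * u ≤ 2 * l * u := mul_le_mul_of_nonneg_right h1 hu0.le
    linarith
  -- the main estimate
  have star : ∀ (J : ℕ) (m : ℝ), 1 ≤ J → J ≤ M → 0 ≤ m → (∀ j, 1 ≤ j → j < J → kk n c j ≤ m) →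
      m + u2 ≤ a → aa n c J ≤ m + u2 ∧ aa n c J + kk n c J ≤ m + u2 + Real.log (5 + kk n c J) := by
    intro J m hJ1 hJM hm hdeep hma
    have h1 := hmain J m hJ1 hJM hm hdeep (by linarith)
    have h2 := log_ep1 hn hc h0 hJ1 hJM hC0
    have h3 := log_ep2 hn hc h0 hJ1 hJM hC0
    rw [hu2]
    constructor <;> linarith
  have hlog5 : ∀ x : ℝ, 0 ≤ x → x ≤ a → Real.log (5 + x) ≤ Real.log (5 + a) := by
    intro x hx1 hx2
    exact Real.log_le_log (by linarith) (by linarith)
  have hlog5' : ∀ j, 1 ≤ j → j ≤ M → ∀ x : ℝ, kk n c j ≤ x → x ≤ a → Real.log (5 + kk n c j) ≤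
      Real.log (5 + a) := by
    intro j hj1 hjM x hx1 hx2
    have := kk_ge hn hc h0 hj1 hjM
    exact Real.log_le_log (by linarith) (by linarith)
  have key := growth (fun i j => (i : ℝ) * u < kk n c j) (I := 2 * l) (M := M)
    (by
      intro i j hij
      have h1 : ((i + 1 : ℕ) : ℝ) * u < kk n c j := hij
      push_cast at h1
      change (i : ℝ) * u < kk n c j
      linarith)
    (by
      intro i hi
      by_contra hno
      push Not at hno
      have hIi := hI i hi
      obtain ⟨h1, -⟩ := star M (i * u) hM le_rfl (by positivity)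
        (fun j hj1 hj2 => hno j hj1 hj2.le) (by linarith)
      rw [← ha] at h1
      linarith)
    (by
      intro i hi J hJ1 hJM hsm hdeep
      have hIi := hI i hi.le
      have hsm' : ∀ j, 1 ≤ j → j < J → kk n c j ≤ i * u := fun j h1 h2 => not_lt.mp (hsm j h1 h2)
      have hdeep' : (i : ℝ) * u + u < kk n c J := by
        have h1 : ((i + 1 : ℕ) : ℝ) * u < kk n c J := hdeep
        push_cast at h1
        linarith
      have hiu : 0 ≤ (i : ℝ) * u := by positivity
      obtain ⟨z, hz⟩ := trap_b hn hM h0 hJ1 hJM (by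
        intro i' hi1 hi2
        obtain ⟨-, h2⟩ := star i' (i * u) hi1 (hi2.trans hJM) hiu
          (fun j hj1 hj2 => hsm' j hj1 (by omega)) (by linarith)
        rcases Nat.lt_or_ge i' J with hlt | hge
        · have h3 := hlog5' i' hi1 (by omega) (i * u) (hsm' i' hi1 hlt) (by linarith)
          linarith
        · have heq : i' = J := by omega
          rw [heq] at h2 ⊢
          have h4 : Real.log (5 + kk n c J) ≤ Real.log (5 + (i * u + u)) +
              (kk n c J - (i * u + u)) := by
            have h5 : 0 < 5 + (i * u + u) := by linarith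
            have h6 : 0 < 5 + kk n c J := by linarith
            have h7 := Real.log_le_sub_one_of_pos (div_pos h6 h5)
            rw [Real.log_div h6.ne' h5.ne'] at h7
            have h8 : (5 + kk n c J) / (5 + (i * u + u)) - 1 ≤ kk n c J - (i * u + u) := by
              rw [div_sub_one h5.ne', div_le_iff₀ h5]
              have h9 : 0 ≤ (kk n c J - (i * u + u)) * (4 + (i * u + u)) := by
                apply mul_nonneg <;> linarith
              linarith
            linarith
          have h5 := hlog5 (i * u + u) (by linarith) hIi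
          linarith)
      exact hnot J hJ1 hJM z hz)
    (by
      intro i hi j d hj1 hd1 hjd h1 h2
      by_contra hno
      push Not at hno
      have hIi := hI i hi.le
      have hiu : 0 ≤ (i : ℝ) * u := by positivity
      have h1' : (i : ℝ) * u + u ≤ kk n c j := by
        have h3 : ((i + 1 : ℕ) : ℝ) * u < kk n c j := h1
        push_cast at h3
        linarith
      have h2' : (i : ℝ) * u + u ≤ kk n c (j + d) := by
        have h3 : ((i + 1 : ℕ) : ℝ) * u < kk n c (j + d) := h2
        push_cast at h3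
        linarith
      refine gap hn h0 hj1 hd1 hjd h1' h2' ?_ ?_
      · intro i' hi1 hi2
        obtain ⟨-, h4⟩ := star i' (i * u) hi1 (by omega) hiu
          (fun j hj1 hj2 => hno j hj1 (by omega)) (by linarith)
        have h3 := hlog5' i' hi1 (by omega) (i * u) (hno i' hi1 hi2) (by linarith)
        linarith
      · have h3 : kk n c d ≤ i * u := hno d hd1 le_rfl
        linarith)
  have h1 := key l le_rfl
  omega

end Pool.Agent.T2H09.LW
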